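import Mathlib

/-!
# MP_6d30b5_co : the periodicity of `m(n,e)` fails

`m n e` is the minimum number of induced connected triples in a graph with `n` vertices and `e`
edges.  For `p = 4`, `n = 35`, `e = 71` the increment `m(35,86) - m(35,71)` is at least `41`,
while the conjectured value is `D_4 = 40`.
-/

namespace Pool.Agent.Results.MP_6d30b5_co.PeriodFails

open Finset

/-- The number of 3-element vertex sets `S` whose induced subgraph `G[S]` is connected. -/
noncomputable def s3 {n : ℕ} (G : SimpleGraph (Fin n)) : ℕ := by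
  classical
  exact ((univ : Finset (Finset (Fin n))).filter
    (fun S : Finset (Fin n) => S.card = 3 ∧ (G.induce (S : Set (Fin n))).Connected)).card

/-- `m n e` is the minimum of `s3 G` over the graphs `G` with `n` vertices and `e` edges. -/
noncomputable def m (n e : ℕ) : ℕ :=
  sInf {s | ∃ G : SimpleGraph (Fin n), G.edgeSet.ncard = e ∧ s3 G = s}

section general

variable {V : Type} [Fintype V] [DecidableEq V] (G : SimpleGraph V) [DecidableRel G.Adj]

/-- `v` is a centre of `S`. -/
def Cen (S : Finset V) (v : V) : Prop := v ∈ S ∧ ∀ u ∈ S, u ≠ v → G.Adj v u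

instance (S : Finset V) (v : V) : Decidable (Cen G S v) := by
  unfold Cen; infer_instance

/-- The triples with a centre. -/
def C : Finset (Finset V) := univ.filter (fun S => S.card = 3 ∧ ∃ v, Cen G S v)

/-- The centres of a set. -/
def cs (S : Finset V) : Finset V := univ.filter (fun v => Cen G S v)

lemma conn_iff (S : Finset V) (hS : S.card = 3) :
    (G.induce (S : Set V)).Connected ↔ ∃ v, Cen G S v := by
  constructor
  · intro h
    have hnt : Nontrivial (S : Set V) := by
      rw [Set.nontrivial_coe_sort]
      rw [Finset.nontrivial_coe]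
      rw [← Finset.one_lt_card_iff_nontrivial]; omega
    have hadj : ∀ x ∈ S, ∃ y ∈ S, G.Adj x y := by
      intro x hx
      obtain ⟨y, hy⟩ := h.preconnected.exists_adj_of_nontrivial (⟨x, hx⟩ : (S : Set V))
      exact ⟨y.1, y.2, hy⟩
    obtain ⟨a, b, c, hab, hac, hbc, rfl⟩ := Finset.card_eq_three.1 hS
    have key : ∀ a b c : V, (∀ x ∈ ({a, b, c} : Finset V), ∃ y ∈ ({a, b, c} : Finset V),
        G.Adj x y) → G.Adj a b → ∃ v, Cen G {a, b, c} v := by
      intro a b c hadj hab'
      obtain ⟨y, hy, hcy⟩ := hadj c (by simp)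
      simp only [mem_insert, mem_singleton] at hy
      rcases hy with rfl | rfl | rfl
      · refine ⟨y, by simp, ?_⟩
        intro u hu hne
        simp only [mem_insert, mem_singleton] at hu
        rcases hu with rfl | rfl | rfl
        · exact absurd rfl hne
        · exact hab'
        · exact hcy.symm
      · refine ⟨y, by simp, ?_⟩
        intro u hu hne
        simp only [mem_insert, mem_singleton] at hu
        rcases hu with rfl | rfl | rfl
        · exact hab'.symm
        · exact absurd rfl hne
        · exact hcy.symm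
      · exact absurd hcy (G.irrefl)
    obtain ⟨y, hy, hay⟩ := hadj a (by simp)
    simp only [mem_insert, mem_singleton] at hy
    rcases hy with rfl | rfl | rfl
    · exact absurd hay (G.irrefl)
    · exact key a y c hadj hay
    · have h2 := key a y b (by
        rw [show ({a, y, b} : Finset V) = {a, b, y} from by
          rw [Finset.pair_comm y b]]
        exact hadj) hay
      rwa [show ({a, y, b} : Finset V) = {a, b, y} from by
          rw [Finset.pair_comm y b]] at h2
  · rintro ⟨v, hv, hc⟩
    have : Nonempty (S : Set V) := ⟨⟨v, hv⟩⟩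
    refine SimpleGraph.Connected.mk ?_
    intro x y
    have hvx : ∀ z : (S : Set V), (G.induce (S : Set V)).Reachable ⟨v, hv⟩ z := by
      intro z
      by_cases hz : z.1 = v
      · have : z = ⟨v, hv⟩ := Subtype.ext hz
        rw [this]
      · exact SimpleGraph.Adj.reachable (by
          show G.Adj v z.1
          exact hc z.1 z.2 hz)
    exact (hvx x).symm.trans (hvx y)

lemma sum_cs : ∑ S ∈ C G, (cs G S).card = ∑ v : V, (G.degree v).choose 2 := by
  have h1 := Finset.sum_card_bipartiteAbove_eq_sum_card_bipartiteBelow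
    (s := C G) (t := (univ : Finset V)) (fun S v => Cen G S v)
  have h2 : ∑ S ∈ C G, (cs G S).card
      = ∑ S ∈ C G, ((univ : Finset V).bipartiteAbove (fun S v => Cen G S v) S).card := by
    apply Finset.sum_congr rfl
    intro S _
    rfl
  rw [h2, h1]
  apply Finset.sum_congr rfl
  intro v _
  rw [← G.card_neighborFinset_eq_degree v, ← Finset.card_powersetCard]
  refine Finset.card_nbij' (fun S => S.erase v) (fun A => insert v A) ?_ ?_ ?_ ?_
  · intro S hS
    have hS' := (Finset.mem_bipartiteBelow _).1 hS
    obtain ⟨hSC, hv, hc⟩ := hS'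
    have hcard : S.card = 3 := ((Finset.mem_filter.1 hSC).2).1
    refine Finset.mem_coe.2 (Finset.mem_powersetCard.2 ⟨?_, ?_⟩)
    · intro u hu
      rw [SimpleGraph.mem_neighborFinset]
      exact hc u (Finset.mem_of_mem_erase hu) (Finset.ne_of_mem_erase hu)
    · rw [Finset.card_erase_of_mem hv, hcard]
  · intro A hA
    obtain ⟨hA1, hA2⟩ := Finset.mem_powersetCard.1 (Finset.mem_coe.1 hA)
    have hvA : v ∉ A := by
      intro h
      have := hA1 h
      rw [SimpleGraph.mem_neighborFinset] at this
      exact G.irrefl this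
    have hcen : Cen G (insert v A) v := by
      refine ⟨Finset.mem_insert_self _ _, ?_⟩
      intro u hu hne
      have : u ∈ A := by
        rcases Finset.mem_insert.1 hu with h | h
        · exact absurd h hne
        · exact h
      have := hA1 this
      rwa [SimpleGraph.mem_neighborFinset] at this
    refine Finset.mem_coe.2 ((Finset.mem_bipartiteBelow _).2 ⟨?_, hcen⟩)
    refine Finset.mem_filter.2 ⟨Finset.mem_univ _, ?_, v, hcen⟩
    rw [Finset.card_insert_of_notMem hvA, hA2]
  · intro S hS
    have hS' := (Finset.mem_bipartiteBelow _).1 hS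
    obtain ⟨hSC, hv, hc⟩ := hS'
    exact Finset.insert_erase hv
  · intro A hA
    obtain ⟨hA1, hA2⟩ := Finset.mem_powersetCard.1 (Finset.mem_coe.1 hA)
    have hvA : v ∉ A := by
      intro h
      have := hA1 h
      rw [SimpleGraph.mem_neighborFinset] at this
      exact G.irrefl this
    exact Finset.erase_insert hvA

lemma cs_le (S : Finset V) (hS : S.card = 3) : (cs G S).card ≤ 3 := by
  rw [← hS]
  apply Finset.card_le_card
  intro v hv
  exact ((Finset.mem_filter.1 hv).2).1

lemma path_mem {a b c : V} (hab : G.Adj a b) (hac : G.Adj a c) (hbc : b ≠ c) :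
    ({a, b, c} : Finset V) ∈ C G := by
  refine Finset.mem_filter.2 ⟨Finset.mem_univ _, ?_, a, by simp, ?_⟩
  · exact Finset.card_eq_three.2 ⟨a, b, c, hab.ne, hac.ne, hbc, rfl⟩
  · intro u hu hne
    simp only [mem_insert, mem_singleton] at hu
    rcases hu with rfl | rfl | rfl
    · exact absurd rfl hne
    · exact hab
    · exact hac

lemma path_cs {a b c : V} (hbc : b ≠ c) (hn : ¬ G.Adj b c) :
    (cs G ({a, b, c} : Finset V)).card ≤ 1 := by
  rw [← Finset.card_singleton a]
  apply Finset.card_le_card
  intro v hv
  obtain ⟨hv1, hv2⟩ := (Finset.mem_filter.1 hv).2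
  simp only [mem_insert, mem_singleton] at hv1
  rcases hv1 with rfl | rfl | rfl
  · simp
  · exact absurd (hv2 c (by simp) hbc.symm) hn
  · exact absurd (hv2 b (by simp) hbc).symm hn

/-- An induced path with centre `w` forces a large defect. -/
lemma defect_large {w x y : V} (hx : G.Adj w x) (hy : G.Adj w y) (hxy : x ≠ y)
    (hn : ¬ G.Adj x y) :
    2 * (G.degree w - 1) ≤ ∑ S ∈ C G, (3 - (cs G S).card) := by
  classical
  set f : V → Finset V := fun z => if G.Adj x z then
    (if G.Adj y z then {z, x, y} else {w, y, z}) else {w, x, z} with hf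
  set N := (G.neighborFinset w).erase x with hN
  have hmemN : ∀ z, z ∈ N → z ≠ x ∧ G.Adj w z := by
    intro z hz
    refine ⟨Finset.ne_of_mem_erase hz, ?_⟩
    have := Finset.mem_of_mem_erase hz
    rwa [SimpleGraph.mem_neighborFinset] at this
  have hfy : f y = {w, x, y} := by simp [hf, hn]
  have hfC : ∀ z ∈ N, f z ∈ C G ∧ (cs G (f z)).card ≤ 1 := by
    intro z hz
    obtain ⟨hzx, hwz⟩ := hmemN z hz
    simp only [hf]
    split_ifs with h1 h2
    · exact ⟨path_mem G h1.symm h2.symm hxy, path_cs G hxy hn⟩
    · have hzy : y ≠ z := by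
        rintro rfl
        exact hn h1
      exact ⟨path_mem G hy hwz hzy, path_cs G hzy h2⟩
    · exact ⟨path_mem G hx hwz (Ne.symm hzx), path_cs G (Ne.symm hzx) h1⟩
  have hz_mem : ∀ z, z ∈ f z := by
    intro z
    simp only [hf]
    split_ifs <;> simp
  have hstep : ∀ z ∈ N, ∀ z' ∈ N, z' ∈ f z → z' = z ∨ (z' = y ∧ z ≠ y ∧ f z ≠ f y) := by
    intro z hz z' hz' hmem
    obtain ⟨hzx, hwz⟩ := hmemN z hz
    obtain ⟨hzx', hwz'⟩ := hmemN z' hz'
    have hwz'ne : z' ≠ w := fun h => by subst h; exact G.irrefl hwz'
    have hwzne : z ≠ w := fun h => by subst h; exact G.irrefl hwz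
    rw [hfy]
    simp only [hf] at hmem ⊢
    split_ifs at hmem ⊢ with h1 h2
    · have hzy : z ≠ y := by
        rintro rfl
        exact hn h1
      simp only [mem_insert, mem_singleton] at hmem
      rcases hmem with h | h | h
      · exact Or.inl h
      · exact absurd h hzx'
      · refine Or.inr ⟨h, hzy, ?_⟩
        intro heq
        have : z ∈ ({w, x, y} : Finset V) := by rw [← heq]; simp
        simp only [mem_insert, mem_singleton] at this
        rcases this with h | h | h
        · exact hwzne h
        · exact hzx h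
        · exact hzy h
    · have hzy : z ≠ y := by
        rintro rfl
        exact hn h1
      simp only [mem_insert, mem_singleton] at hmem
      rcases hmem with h | h | h
      · exact absurd h hwz'ne
      · refine Or.inr ⟨h, hzy, ?_⟩
        intro heq
        have : z ∈ ({w, x, y} : Finset V) := by rw [← heq]; simp
        simp only [mem_insert, mem_singleton] at this
        rcases this with h | h | h
        · exact hwzne h
        · exact hzx h
        · exact hzy h
      · exact Or.inl h
    · simp only [mem_insert, mem_singleton] at hmem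
      rcases hmem with h | h | h
      · exact absurd h hwz'ne
      · exact absurd h hzx'
      · exact Or.inl h
  have hinj : Set.InjOn f (N : Set V) := by
    intro z hz z' hz' heq
    have hz1 : z ∈ N := hz
    have hz2 : z' ∈ N := hz'
    have h1 : z' ∈ f z := by rw [heq]; exact hz_mem z'
    rcases hstep z hz1 z' hz2 h1 with h | ⟨h, _, h3⟩
    · exact h.symm
    · exfalso
      apply h3
      rw [heq, h]
  have hcardN : N.card = G.degree w - 1 := by
    rw [hN, Finset.card_erase_of_mem (by rw [SimpleGraph.mem_neighborFinset]; exact hx),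
      G.card_neighborFinset_eq_degree]
  have hsub : N.image f ⊆ C G := by
    intro S hS
    obtain ⟨z, hz, rfl⟩ := Finset.mem_image.1 hS
    exact (hfC z hz).1
  calc 2 * (G.degree w - 1) = ∑ S ∈ N.image f, 2 := by
        rw [Finset.sum_const, Finset.card_image_of_injOn hinj, hcardN, smul_eq_mul, mul_comm]
    _ ≤ ∑ S ∈ N.image f, (3 - (cs G S).card) := by
        apply Finset.sum_le_sum
        intro S hS
        obtain ⟨z, hz, rfl⟩ := Finset.mem_image.1 hS
        have := (hfC z hz).2
        omega
    _ ≤ ∑ S ∈ C G, (3 - (cs G S).card) :=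
        Finset.sum_le_sum_of_subset_of_nonneg hsub (by intros; exact Nat.zero_le _)

lemma three_C : 3 * (C G).card = ∑ v : V, (G.degree v).choose 2
    + ∑ S ∈ C G, (3 - (cs G S).card) := by
  rw [← sum_cs, ← Finset.sum_add_distrib]
  have : ∀ S ∈ C G, (cs G S).card + (3 - (cs G S).card) = 3 := by
    intro S hS
    have := cs_le G S ((Finset.mem_filter.1 hS).2).1
    omega
  rw [Finset.sum_congr rfl this, Finset.sum_const, smul_eq_mul, mul_comm]

/-- The lower bound for graphs with 35 vertices and 86 edges. -/
lemma lower (hV : Fintype.card V = 35) (hE : ∑ v : V, G.degree v = 172) :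
    115 ≤ (C G).card := by
  have h3 := three_C G
  by_contra hlt
  push Not at hlt
  -- pass to integers
  have hch : ∀ v : V, (2 : ℤ) * ((G.degree v).choose 2 : ℤ)
      = 8 * (G.degree v : ℤ) - 20 + ((G.degree v : ℤ) - 4) * ((G.degree v : ℤ) - 5) := by
    intro v
    have h := Nat.choose_two_right (G.degree v)
    have h2 : 2 ∣ G.degree v * (G.degree v - 1) := (Nat.even_mul_pred_self _).two_dvd
    have h4 : (G.degree v).choose 2 * 2 = G.degree v * (G.degree v - 1) := by
      rw [h]; exact Nat.div_mul_cancel h2
    rcases Nat.eq_zero_or_pos (G.degree v) with h0 | h0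
    · rw [h0]; simp
    · have h5 : ((G.degree v - 1 : ℕ) : ℤ) = (G.degree v : ℤ) - 1 := by
        push_cast [h0]; ring
      have h6 : (((G.degree v).choose 2 : ℕ) : ℤ) * 2 = (G.degree v : ℤ) * ((G.degree v : ℤ) - 1) := by
        rw [← h5]; exact_mod_cast h4
      linarith [h6]
  set Q : V → ℤ := fun v => ((G.degree v : ℤ) - 4) * ((G.degree v : ℤ) - 5) with hQ
  have hQ0 : ∀ v, 0 ≤ Q v := by
    intro v
    simp only [hQ]
    rcases le_or_gt (G.degree v) 4 with h | h
    · have : (G.degree v : ℤ) ≤ 4 := by exact_mod_cast h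
      nlinarith
    · have : (5 : ℤ) ≤ (G.degree v : ℤ) := by exact_mod_cast h
      nlinarith
  set D : ℕ := ∑ S ∈ C G, (3 - (cs G S).card) with hD
  have hsum : (6 : ℤ) * ((C G).card : ℤ) = 676 + ∑ v : V, Q v + 2 * (D : ℤ) := by
    have h7 : (3 : ℤ) * ((C G).card : ℤ) = ∑ v : V, ((G.degree v).choose 2 : ℤ) + (D : ℤ) := by
      exact_mod_cast h3
    have h8 : (2 : ℤ) * ∑ v : V, ((G.degree v).choose 2 : ℤ)
        = 8 * 172 - 20 * 35 + ∑ v : V, Q v := by
      rw [Finset.mul_sum, Finset.sum_congr rfl (fun v _ => hch v)]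
      rw [Finset.sum_add_distrib, Finset.sum_sub_distrib, ← Finset.mul_sum]
      have h9 : ∑ v : V, (G.degree v : ℤ) = 172 := by exact_mod_cast hE
      rw [h9, Finset.sum_const, Finset.card_univ, hV]
      simp [hQ]
    linarith
  have hsmall : ∑ v : V, Q v + 2 * (D : ℤ) ≤ 8 := by
    have : ((C G).card : ℤ) ≤ 114 := by exact_mod_cast (by omega : (C G).card ≤ 114)
    linarith
  have hQs : ∀ T : Finset V, ∑ v ∈ T, Q v ≤ ∑ v : V, Q v := by
    intro T
    exact Finset.sum_le_sum_of_subset_of_nonneg (Finset.subset_univ _) (fun v _ _ => hQ0 v)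
  by_cases hP : ∃ w x y, G.Adj w x ∧ G.Adj w y ∧ x ≠ y ∧ ¬ G.Adj x y
  · obtain ⟨w, x, y, hx, hy, hxy, hn⟩ := hP
    have h1 := defect_large G hx hy hxy hn
    rw [← hD] at h1
    have hd : 1 ≤ G.degree w := by
      rw [Nat.one_le_iff_ne_zero, ← Nat.pos_iff_ne_zero, G.degree_pos_iff_exists_adj]
      exact ⟨x, hx⟩
    have h2 : (2 : ℤ) * ((G.degree w : ℤ) - 1) ≤ (D : ℤ) := by
      have : 2 * G.degree w ≤ D + 2 := by omega
      have : (2 : ℤ) * (G.degree w : ℤ) ≤ D + 2 := by exact_mod_cast this
      linarith
    have h4 := hQs {w}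
    rw [Finset.sum_singleton] at h4
    simp only [hQ] at h4 hsmall
    nlinarith [sq_nonneg (2 * (G.degree w : ℤ) - 5)]
  · push Not at hP
    -- closed neighbourhoods have constant degree
    have hnb : ∀ v u, G.Adj v u → G.degree u = G.degree v := by
      have hle : ∀ v u, G.Adj v u → G.degree v ≤ G.degree u := by
        intro v u hvu
        have hsub : insert v ((G.neighborFinset v).erase u) ⊆ G.neighborFinset u := by
          intro z hz
          rw [SimpleGraph.mem_neighborFinset]
          rcases Finset.mem_insert.1 hz with rfl | hz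
          · exact hvu.symm
          · have hz1 := Finset.ne_of_mem_erase hz
            have hz2 := Finset.mem_of_mem_erase hz
            rw [SimpleGraph.mem_neighborFinset] at hz2
            exact hP v u z hvu hz2 (Ne.symm hz1)
        have h1 := Finset.card_le_card hsub
        rw [Finset.card_insert_of_notMem, Finset.card_erase_of_mem,
          G.card_neighborFinset_eq_degree, G.card_neighborFinset_eq_degree] at h1
        · have : 1 ≤ G.degree v := by
            rw [Nat.one_le_iff_ne_zero, ← Nat.pos_iff_ne_zero, G.degree_pos_iff_exists_adj]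
            exact ⟨u, hvu⟩
          omega
        · rw [SimpleGraph.mem_neighborFinset]; exact hvu
        · intro h
          have := Finset.mem_of_mem_erase h
          rw [SimpleGraph.mem_neighborFinset] at this
          exact G.irrefl this
      intro v u hvu
      exact le_antisymm (hle u v hvu.symm) (hle v u hvu)
    have hcl : ∀ v, (insert v (G.neighborFinset v)).card = G.degree v + 1 := by
      intro v
      rw [Finset.card_insert_of_notMem, G.card_neighborFinset_eq_degree]
      rw [SimpleGraph.mem_neighborFinset]; exact G.irrefl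
    have hcd : ∀ v, ∀ u ∈ insert v (G.neighborFinset v), G.degree u = G.degree v := by
      intro v u hu
      rcases Finset.mem_insert.1 hu with rfl | hu
      · rfl
      · rw [SimpleGraph.mem_neighborFinset] at hu
        exact hnb v u hu
    have hD0 : (0 : ℤ) ≤ (D : ℤ) := Int.natCast_nonneg _
    have hdeg : ∀ v, 3 ≤ G.degree v ∧ G.degree v ≤ 5 := by
      intro v
      have h1 := hQs (insert v (G.neighborFinset v))
      have h2 : ∑ u ∈ insert v (G.neighborFinset v), Q u
          = ((G.degree v : ℤ) + 1) * (((G.degree v : ℤ) - 4) * ((G.degree v : ℤ) - 5)) := by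
        rw [Finset.sum_congr rfl (fun u hu => by
          show Q u = ((G.degree v : ℤ) - 4) * ((G.degree v : ℤ) - 5)
          simp only [hQ]
          rw [hcd v u hu])]
        rw [Finset.sum_const, hcl]
        push_cast
        simp
      have h3 : ((G.degree v : ℤ) + 1) * (((G.degree v : ℤ) - 4) * ((G.degree v : ℤ) - 5)) ≤ 8 := by
        rw [← h2]; linarith
      constructor
      · by_contra hlt'
        push Not at hlt'
        interval_cases hh : G.degree v <;> norm_num at h3
      · by_contra hgt
        push Not at hgt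
        have h6 : (6 : ℤ) ≤ (G.degree v : ℤ) := by exact_mod_cast hgt
        have h7 : (2 : ℤ) ≤ ((G.degree v : ℤ) - 4) * ((G.degree v : ℤ) - 5) := by nlinarith
        nlinarith
    have hdef : ∑ v : V, (5 - G.degree v) = 3 := by
      have h1 : ∑ v : V, ((5 - G.degree v) + G.degree v) = ∑ v : V, 5 := by
        apply Finset.sum_congr rfl
        intro v _
        have := (hdeg v).2
        omega
      rw [Finset.sum_add_distrib, hE, Finset.sum_const, Finset.card_univ, hV] at h1
      simp at h1
      omega
    have hall : ∀ v, G.degree v = 5 := by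
      intro v
      have h1 : ∑ u ∈ insert v (G.neighborFinset v), (5 - G.degree u) ≤ ∑ v : V, (5 - G.degree v) :=
        Finset.sum_le_sum_of_subset_of_nonneg (Finset.subset_univ _)
          (by intros; exact Nat.zero_le _)
      rw [Finset.sum_congr rfl (fun u hu => by
          show 5 - G.degree u = 5 - G.degree v
          rw [hcd v u hu]), Finset.sum_const, hcl, hdef, smul_eq_mul] at h1
      obtain ⟨h2, h3⟩ := hdeg v
      interval_cases hh : G.degree v
      · omega
      · omega
      · rfl
    rw [Finset.sum_congr rfl (fun v _ => by rw [hall v])] at hdef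
    simp at hdef

/-- Graphs with no induced path on three vertices have no defect. -/
lemma three_C_of_trans (hP : ∀ w x y, G.Adj w x → G.Adj w y → x ≠ y → G.Adj x y) :
    3 * (C G).card = ∑ v : V, (G.degree v).choose 2 := by
  rw [three_C G]
  have : ∑ S ∈ C G, (3 - (cs G S).card) = 0 := by
    apply Finset.sum_eq_zero
    intro S hS
    obtain ⟨-, hS3, v, hv, hc⟩ := Finset.mem_filter.1 hS
    have hsub : S ⊆ cs G S := by
      intro u hu
      refine Finset.mem_filter.2 ⟨Finset.mem_univ _, hu, ?_⟩
      intro z hz hzu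
      by_cases huv : u = v
      · subst huv
        exact hc z hz hzu
      · by_cases hzv : z = v
        · subst hzv
          exact (hc u hu huv).symm
        · exact hP v u z (hc u hu huv) (hc z hz hzv) (Ne.symm hzu)
    have := Finset.card_le_card hsub
    omega
  rw [this, add_zero]

end general

lemma s3_eq {n : ℕ} (G : SimpleGraph (Fin n)) [DecidableRel G.Adj] : s3 G = (C G).card := by
  classical
  unfold s3 C
  congr 1
  ext S
  simp only [mem_filter, mem_univ, true_and]
  constructor
  · rintro ⟨h1, h2⟩
    exact ⟨h1, (conn_iff G S h1).1 h2⟩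
  · rintro ⟨h1, h2⟩
    exact ⟨h1, (conn_iff G S h1).2 h2⟩

lemma edges_eq {n : ℕ} (G : SimpleGraph (Fin n)) [DecidableRel G.Adj] :
    2 * G.edgeSet.ncard = ∑ v, G.degree v := by
  rw [G.sum_degrees_eq_twice_card_edges, ← G.coe_edgeFinset, Set.ncard_coe_finset]

/-- Disjoint union of cliques given by a colouring; colour `c` is a clique. -/
def blocks (b : Fin 35 → ℕ) : SimpleGraph (Fin 35) where
  Adj i j := i ≠ j ∧ b i = b j
  symm := ⟨fun _ _ h => ⟨h.1.symm, h.2.symm⟩⟩
  loopless := ⟨fun _ h => h.1 rfl⟩

instance (b : Fin 35 → ℕ) : DecidableRel (blocks b).Adj := fun i j => by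
  unfold blocks; infer_instance

/-- `K_4 ∪ 5 K_5 ∪ K_6`. -/
def b0 (i : Fin 35) : ℕ := if i.val < 4 then 0 else if i.val < 29 then 1 + (i.val - 4) / 5 else 10

/-- `K_13 ∪ K_4 ∪ K_2 ∪ K_2` and isolated vertices. -/
def b1 (i : Fin 35) : ℕ :=
  if i.val < 13 then 100 else if i.val < 17 then 101 else if i.val < 19 then 102
  else if i.val < 21 then 103 else i.val

/-- For `p = 4`, `n = 35`, `e = 71` the conjectured increment `D_4 = 40` is exceeded; hence the
periodicity statement is false. -/
theorem result :
    (m 35 71 + 41 ≤ m 35 (71 + Nat.choose (4 + 2) 2)) ∧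
    ¬ ∀ p n e : ℕ, p * n < 2 * e → 2 * (e + Nat.choose (p + 2) 2) < (p + 1) * n →
      (m n (e + Nat.choose (p + 2) 2) : ℤ) - (m n e : ℤ)
        = ((p * (p + 1) * (p + 2) / 3 : ℕ) : ℤ) := by
  have hmain : m 35 71 + 41 ≤ m 35 (71 + Nat.choose (4 + 2) 2) := by
    have hdeg0 : ∑ v, (blocks b0).degree v = 142 := by decide +kernel
    have hch0 : ∑ v, ((blocks b0).degree v).choose 2 = 222 := by decide +kernel
    have hdeg1 : ∑ v, (blocks b1).degree v = 172 := by decide +kernel
    have hup : m 35 71 ≤ 74 := by
      apply Nat.sInf_le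
      refine ⟨blocks b0, ?_, ?_⟩
      · have := edges_eq (blocks b0)
        omega
      · rw [s3_eq]
        have := three_C_of_trans (blocks b0) (by
          rintro w x y ⟨h1, h2⟩ ⟨h3, h4⟩ hxy
          exact ⟨hxy, h2.symm.trans h4⟩)
        omega
    have hlow : 115 ≤ m 35 (71 + Nat.choose (4 + 2) 2) := by
      have hne : ({s | ∃ G : SimpleGraph (Fin 35),
          G.edgeSet.ncard = 71 + Nat.choose (4 + 2) 2 ∧ s3 G = s} : Set ℕ).Nonempty := by
        refine ⟨s3 (blocks b1), blocks b1, ?_, rfl⟩
        have := edges_eq (blocks b1)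
        have h15 : Nat.choose (4 + 2) 2 = 15 := by decide
        omega
      obtain ⟨G, hG, hs⟩ := Nat.sInf_mem hne
      show 115 ≤ sInf _
      rw [← hs]
      classical
      rw [s3_eq G]
      apply lower G (by simp)
      rw [← edges_eq G, hG]
      decide
    omega
  refine ⟨hmain, fun h => ?_⟩
  have h1 := h 4 35 71 (by norm_num) (by decide)
  have h2 : (m 35 (71 + Nat.choose (4 + 2) 2) : ℤ) - (m 35 71 : ℤ) = 40 := by
    rw [h1]; norm_num
  have h3 : (m 35 71 : ℤ) + 41 ≤ m 35 (71 + Nat.choose (4 + 2) 2) := by exact_mod_cast hmain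
  linarith

end Pool.Agent.Results.MP_6d30b5_co.PeriodFails
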